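import Pool.Agent.H2.ED.Gam3

/-!
# Rational self-maps whose topological degree is larger than the dynamical degree of index `n - 2`
-/

set_option autoImplicit false

namespace Pool.Agent.Results.MP_0240fc_ag.DegreeAboveLambda

open MvPolynomial

/-- Let `k` be an algebraically closed field of characteristic zero and of finite transcendence
degree over `ℚ`. Let `X` be the irreducible projective variety over `k` defined by the homogeneous
prime ideal `I` (some variable is not in `I`), of dimension at most `n`: any `n + 2` polynomials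
`u` satisfy a non-trivial relation `q(u) ∈ I`. Let `f` be a dominant rational self-map of `X`
given by homogeneous polynomials `F i` of degree `d ≥ 1`, common factors are allowed: `p(F) ∈ I` for
`p ∈ I`, and dominant means that `q ∈ I` if `q` is homogeneous and `q(F) ∈ I`. Suppose that `f`
is not fibered: if `P` and `Q ∉ I` are homogeneous of the same degree and `(P / Q) ∘ f = P / Q`
on `X` then `P / Q` is constant on `X`. There is no further condition if `n ≤ 2`, that is for curves
and surfaces. If `n ≥ 3` suppose that `X` has dimension `n` (there are `n + 1` polynomials `u` such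
that `q(u) ∈ I` only for `q = 0`) and that the topological degree of `f` is larger than its
dynamical degree of index `n - 2`:

* outside some hypersurface section every point of `X` has at least `e` preimages: for `y` in the
  cone over `X` with `c(y) ≠ 0`, `c ∉ I`, there is a set `S` of `e` points `x` of the cone with
  `F x = y`, no two of which are proportional;
* there are real numbers `0 ≤ μ < e` and `C` such that for all `m` the degree of index `n - 2` of
  `f^m` is at most `C μ ^ m`: for all linear forms `s₀`, `s'`, `s 0, ..., s (n - 1)` there is a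
  polynomial `g ≠ 0` in `n` variables such that for all `t` with `g(t) ≠ 0` at most `C μ ^ m` points
  `x` of `X` with `s₀ ≠ 0` and `s' ∘ f^m ≠ 0` satisfy the `n` equations `s i = t i * s₀` at `x` for
  `i < 2` and `s i = t i * s'` at `f^m(x)` for `i ≥ 2`.

Then for every homogeneous polynomial `b ∉ I` there is a point `x` of `X(k)` with a well-defined
forward orbit, which is contained in `b ≠ 0` and Zariski dense in `X`. -/
theorem result (k : Type) [Field k] [CharZero k] [IsAlgClosed k]
    (hk : ∃ s : Finset k, Algebra.IsAlgebraic (IntermediateField.adjoin ℚ (s : Set k)) k)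
    (L : ℕ) (I : Ideal (MvPolynomial (Fin L) k)) (hI : I.IsPrime)
    (hhom : ∀ p ∈ I, ∀ j : ℕ, homogeneousComponent j p ∈ I)
    (hne : ∃ i, (X i : MvPolynomial (Fin L) k) ∉ I) (n : ℕ)
    (hdim : ∀ u : Fin (n + 2) → MvPolynomial (Fin L) k,
      ∃ q : MvPolynomial (Fin (n + 2)) k, q ≠ 0 ∧ aeval u q ∈ I)
    (F : Fin L → MvPolynomial (Fin L) k) (d : ℕ) (hd : 1 ≤ d) (hF : ∀ i, (F i).IsHomogeneous d)
    (hmap : ∀ p ∈ I, aeval F p ∈ I)
    (hdom : ∀ (m : ℕ) (q : MvPolynomial (Fin L) k), q.IsHomogeneous m → aeval F q ∈ I → q ∈ I)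
    (hfib : ∀ (m : ℕ) (P Q : MvPolynomial (Fin L) k), P.IsHomogeneous m → Q.IsHomogeneous m →
      Q ∉ I → aeval F P * Q - aeval F Q * P ∈ I → ∃ s : k, P - C s * Q ∈ I)
    (hlarge : 3 ≤ n → (∃ u : Fin (n + 1) → MvPolynomial (Fin L) k,
      ∀ q : MvPolynomial (Fin (n + 1)) k, aeval u q ∈ I → q = 0) ∧
      ∃ (c : MvPolynomial (Fin L) k) (e : ℕ) (μ C : ℝ), c ∉ I ∧
      (∀ y : Fin L → k, (∀ p ∈ I, eval y p = 0) → eval y c ≠ 0 →
        ∃ S : Finset (Fin L → k), S.card = e ∧
          (∀ x ∈ S, (∀ p ∈ I, eval x p = 0) ∧ (fun i => eval x (F i)) = y) ∧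
          ∀ x ∈ S, ∀ x' ∈ S, ∀ s : k, (∀ i, x' i = s * x i) → x' = x) ∧
      0 ≤ μ ∧ μ < e ∧
      ∀ (m : ℕ) (s₀ s' : MvPolynomial (Fin L) k) (s : Fin n → MvPolynomial (Fin L) k),
        s₀.IsHomogeneous 1 → s'.IsHomogeneous 1 → (∀ i, (s i).IsHomogeneous 1) →
        ∃ g : MvPolynomial (Fin n) k, g ≠ 0 ∧
          ∀ t : Fin n → k, eval t g ≠ 0 → ∀ S : Finset (Fin L → k),
            (∀ x ∈ S, (∀ p ∈ I, eval x p = 0) ∧ eval x s₀ = 1 ∧
              eval ((fun (z : Fin L → k) (l : Fin L) => eval z (F l))^[m] x) s' ≠ 0 ∧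
              ∀ i : Fin n, ((i : ℕ) < 2 → eval x (s i) = t i) ∧
                (2 ≤ (i : ℕ) →
                  eval ((fun (z : Fin L → k) (l : Fin L) => eval z (F l))^[m] x) (s i) =
                  t i * eval ((fun (z : Fin L → k) (l : Fin L) => eval z (F l))^[m] x) s')) →
            (S.card : ℝ) ≤ C * μ ^ m)
    (b : MvPolynomial (Fin L) k) (t : ℕ) (hb : b.IsHomogeneous t) (hbI : b ∉ I) :
    ∃ x : Fin L → k, (∀ p ∈ I, eval x p = 0) ∧
      (∀ m : ℕ, (fun (z : Fin L → k) (l : Fin L) => eval z (F l))^[m] x ≠ 0) ∧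
      (∀ m : ℕ, eval ((fun (z : Fin L → k) (l : Fin L) => eval z (F l))^[m] x) b ≠ 0) ∧
      ∀ (s : ℕ) (q : MvPolynomial (Fin L) k), q.IsHomogeneous s →
        (∀ m : ℕ, eval ((fun (z : Fin L → k) (l : Fin L) => eval z (F l))^[m] x) q = 0) →
        q ∈ I := by
  refine Pool.Agent.H2.ED.gst_of_ftd k hk L n d t I F b hI hhom hne hdim hd hF hmap hdom hfib
    (fun h3 => ?_) hb hbI
  obtain ⟨hu, c, e, μ, C, hc, he, hμ0, hμ, hpts⟩ := hlarge h3
  exact ⟨hu, e, μ, C, ⟨c, hc, he⟩, hμ0, hμ, hpts⟩

end Pool.Agent.Results.MP_0240fc_ag.DegreeAboveLambda
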